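import Pool.Agent.Q45.ND.Stm

/-!
Job ND-BLKN (project ND of helper45): the Lie algebra of the image contains the skew endomorphisms
of `M` which kill a vector.
-/

set_option autoImplicit false
set_option linter.all false

open Module

namespace Pool.Agent.Q237.ND.BLKN

open Pool.Agent.Q45.OI Pool.Agent.Q45.OI.KLA Pool.Agent.Q45.ND
open scoped Classical

section tri

variable {Ω M : Type} [Fintype Ω] [AddCommGroup M] [Module ℤ_[2] M]

theorem kap_smul (κ : M →+ (Ω → ZMod 2)) (hker : ∀ m, κ m = 0 ↔ ∃ m', m = (2 : ℤ_[2]) • m')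
    (c : ℤ_[2]) (m : M) : κ (c • m) = PadicInt.toZMod c • κ m := by
  have h01 : ∀ c : ZMod 2, c = 0 ∨ c = 1 := by decide
  rcases h01 (PadicInt.toZMod c) with h1 | h1
  · rw [h1, zero_smul, hker]
    obtain ⟨b, hb⟩ := (tz_zero_iff c).1 h1
    exact ⟨b • m, by rw [hb, mul_smul]⟩
  · rw [h1, one_smul, ← sub_eq_zero, ← map_sub, hker]
    have h2 : PadicInt.toZMod (c - 1) = (0 : ZMod 2) := by rw [map_sub, h1, map_one, sub_self]
    obtain ⟨b, hb⟩ := (tz_zero_iff _).1 h2
    refine ⟨b • m, ?_⟩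
    rw [← mul_smul, ← hb, sub_smul, one_smul]

theorem isUnit_of_tz {c : ℤ_[2]} (h : PadicInt.toZMod c ≠ 0) : IsUnit c := by
  have h1 : c ∉ IsLocalRing.maximalIdeal ℤ_[2] := by
    rw [← PadicInt.ker_toZMod, RingHom.mem_ker]
    exact h
  exact IsLocalRing.notMem_maximalIdeal.1 h1

theorem tri (κ : M →+ (Ω → ZMod 2)) (hker : ∀ m, κ m = 0 ↔ ∃ m', m = (2 : ℤ_[2]) • m')
    (hsurj : Function.Surjective κ) (hodd : Odd (Fintype.card Ω)) (hcard : 7 ≤ Fintype.card Ω)
    (B : M →ₗ[ℤ_[2]] M →ₗ[ℤ_[2]] ℤ_[2]) (hsym : ∀ x y, B x y = B y x)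
    (hdot : ∀ x y, PadicInt.toZMod (B x y) = ∑ i, κ x i * κ y i) (v : M) (hv : ∀ i, κ v i = 1)
    (γ : Equiv.Perm Ω) (hγ3 : γ ^ 3 = 1) (hγ1 : γ ≠ 1) :
    ∃ a : End ℤ_[2] M, InSo B a ∧ a v = 0 ∧ ∃ m : M, ∀ g : End ℤ_[2] M,
      (∀ x i, κ (g x) (γ i) = κ x i) → κ (g (a m)) ≠ κ (a (g m)) := by
  -- the vertices
  obtain ⟨i, hi⟩ : ∃ i, γ i ≠ i := by
    by_contra hc
    push Not at hc
    exact hγ1 (Equiv.ext hc)
  set p := γ i with hp
  set q := γ p with hq
  have hqi : γ q = i := by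
    have := congrArg (fun s : Equiv.Perm Ω => s i) hγ3
    simpa [pow_succ] using this
  have hqp : q ≠ p := fun h => hi (γ.injective h)
  have hqi' : q ≠ i := by
    intro h
    rw [h] at hqi
    exact hi hqi
  obtain ⟨k, hk⟩ : ∃ k, k ∉ ({i, p, q} : Finset Ω) := by
    by_contra hc
    push Not at hc
    have h1 : (Finset.univ : Finset Ω) ⊆ {i, p, q} := fun k _ => hc k
    have h2 := Finset.card_le_card h1
    have h3 : ({i, p, q} : Finset Ω).card ≤ 3 := Finset.card_le_three
    rw [Finset.card_univ] at h2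
    omega
  simp only [Finset.mem_insert, Finset.mem_singleton, not_or] at hk
  obtain ⟨hki, hkp, hkq⟩ := hk
  have hvv : PadicInt.toZMod (B v v) ≠ 0 := by
    rw [hdot]
    simp only [hv, mul_one, Finset.sum_const, Finset.card_univ, nsmul_eq_mul]
    obtain ⟨t, ht⟩ := hodd
    rw [ht]
    push_cast
    rw [show (2 : ZMod 2) = 0 from rfl, zero_mul, zero_add]
    exact one_ne_zero
  obtain ⟨u, hu⟩ := isUnit_of_tz hvv
  -- orthogonal lifts
  have hlift : ∀ z : Ω → ZMod 2, ∑ t, z t = 0 → ∃ x, κ x = z ∧ B x v = 0 ∧ B v x = 0 := by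
    intro z hz
    obtain ⟨x, rfl⟩ := hsurj z
    have h1 : B (x - (B x v * ((u⁻¹ : ℤ_[2]ˣ) : ℤ_[2])) • v) v = 0 := by
      rw [map_sub, map_smul, LinearMap.sub_apply, LinearMap.smul_apply, smul_eq_mul, ← hu,
        mul_assoc, Units.inv_mul, mul_one, sub_self]
    refine ⟨x - (B x v * ((u⁻¹ : ℤ_[2]ˣ) : ℤ_[2])) • v, ?_, h1, by rw [hsym]; exact h1⟩
    have h2 : PadicInt.toZMod (B x v) = 0 := by
      rw [hdot]
      simp only [hv, mul_one]
      exact hz
    rw [map_sub, kap_smul κ hker, map_mul, h2, zero_mul, zero_smul, sub_zero]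
  obtain ⟨x, hx, hxv, hvx⟩ := hlift (Pi.single i 1 + Pi.single p 1) (by
    simp only [Pi.add_apply, Finset.sum_add_distrib, Finset.sum_pi_single', Finset.mem_univ,
      if_true]
    decide)
  obtain ⟨y, hy, hyv, hvy⟩ := hlift (Pi.single p 1 + Pi.single k 1) (by
    simp only [Pi.add_apply, Finset.sum_add_distrib, Finset.sum_pi_single', Finset.mem_univ,
      if_true]
    decide)
  let a : End ℤ_[2] M := (B.flip x).smulRight y - (B.flip y).smulRight x
  have ha : ∀ m, a m = B m x • y - B m y • x := fun m => rfl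
  have hka : ∀ m, κ (a m) = (∑ t, κ m t * κ x t) • κ y - (∑ t, κ m t * κ y t) • κ x := by
    intro m
    rw [ha, map_sub, kap_smul κ hker, kap_smul κ hker, hdot, hdot]
  have hdx : ∀ r (z : Ω → ZMod 2), ∑ t, (Pi.single r (1 : ZMod 2) : Ω → ZMod 2) t * z t = z r := by
    intro r z
    rw [Finset.sum_eq_single r]
    · rw [Pi.single_eq_same, one_mul]
    · intro t _ ht
      rw [Pi.single_eq_of_ne ht, zero_mul]
    · intro h
      exact absurd (Finset.mem_univ r) h
  refine ⟨a, fun m n => ?_, ?_, ?_⟩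
  · rw [ha, ha]
    simp only [map_sub, map_smul, LinearMap.sub_apply, LinearMap.smul_apply, smul_eq_mul]
    rw [hsym y n, hsym x n]
    ring
  · rw [ha, hvx, hvy, zero_smul, zero_smul, sub_zero]
  · obtain ⟨m, hm⟩ := hsurj (Pi.single p 1)
    refine ⟨m, fun g hg hcon => ?_⟩
    have h1 : κ (g m) = Pi.single q 1 := by
      funext t
      obtain ⟨t, rfl⟩ := γ.surjective t
      rw [hg, hm]
      by_cases ht : t = p
      · subst ht
        rw [Pi.single_eq_same, hq, Pi.single_eq_same]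
      · rw [Pi.single_eq_of_ne ht, Pi.single_eq_of_ne]
        intro h
        exact ht (γ.injective h)
    have h2 : κ (a (g m)) = 0 := by
      rw [hka, h1, hdx, hdx, hx, hy]
      simp only [Pi.add_apply]
      rw [Pi.single_eq_of_ne hqi', Pi.single_eq_of_ne hqp, Pi.single_eq_of_ne (Ne.symm hkq)]
      simp
    have h3 : κ (a m) i = 1 := by
      rw [hka, hm, hdx, hdx, hx, hy]
      simp only [Pi.add_apply, Pi.sub_apply, Pi.smul_apply]
      rw [Pi.single_eq_of_ne hi, Pi.single_eq_same, Pi.single_eq_of_ne (Ne.symm hkp),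
        Pi.single_eq_of_ne (Ne.symm hi), Pi.single_eq_same, Pi.single_eq_of_ne (Ne.symm hki)]
      decide
    have h4 := congrFun hcon (γ i)
    rw [hg, h3, h2] at h4
    exact one_ne_zero h4

end tri

theorem main (hS : Struct) (hD : Dot) (hAn : Ann) : BlkN := by
  intro G Ω M N _ _ _ _ _ _ _ _ _ _ ρ ν κ act B h
  have hcard3 : 3 ≤ Fintype.card Ω := by have := h.card; omega
  have hinv : ∀ g ∈ ρ.range, InO B (g : End ℤ_[2] M) := by
    rintro _ ⟨T, rfl⟩ x y
    exact h.inv T x y
  have hperm : ∀ s : Equiv.Perm Ω, ∃ g ∈ ρ.range, ∀ m i, κ ((g : End ℤ_[2] M) m) (s i) = κ m i := by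
    intro s
    obtain ⟨T, rfl⟩ := h.perm s
    exact ⟨ρ T, ⟨T, rfl⟩, h.eqv T⟩
  have hdot := hD Ω h.odd hcard3 M κ h.surj h.ker ρ.range B h.symm h.perfect hinv hperm
  have hst := hS Ω h.odd h.card M κ h.surj h.ker ρ.range B h.symm h.perfect hinv hperm
  obtain ⟨hAn1, hAn2⟩ := hAn Ω h.odd h.card M κ h.surj h.ker B h.symm hdot
  set inc : M →ₗ[ℤ_[2]] M × N := LinearMap.inl ℤ_[2] M N with hincd
  set prj : M × N →ₗ[ℤ_[2]] M := LinearMap.fst ℤ_[2] M N with hprjd
  set R : G →* (End ℤ_[2] (M × N))ˣ := pr ρ ν with hR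
  have hpi : ∀ m, prj (inc m) = m := fun m => rfl
  have hinc : ∀ T m, (R T : End ℤ_[2] (M × N)) (inc m) = inc ((ρ T : End ℤ_[2] M) m) := by
    intro T m
    rw [hR, pr_apply]
    show ((ρ T : End ℤ_[2] M) m, (ν T : End ℤ_[2] N) 0) = ((ρ T : End ℤ_[2] M) m, (0 : N))
    rw [map_zero]
  have hprj : ∀ T x, prj ((R T : End ℤ_[2] (M × N)) x) = (ρ T : End ℤ_[2] M) (prj x) :=
    fun T x => rfl
  obtain ⟨L, hL, hLsat, hLconj, -⟩ := lie1 (M × N) R.range
  set e : End ℤ_[2] (M × N) := inc ∘ₗ prj with he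
  have heap : ∀ x, e x = inc (prj x) := fun x => rfl
  have hee : e * e = e := by
    refine LinearMap.ext fun x => ?_
    rw [End.mul_apply, heap, heap, hpi]
  have hrange : ∀ g ∈ R.range, (g : End ℤ_[2] (M × N)) * e = e * (g : End ℤ_[2] (M × N)) := by
    rintro _ ⟨T, rfl⟩
    refine LinearMap.ext fun x => ?_
    rw [End.mul_apply, End.mul_apply, heap, heap, hinc, hprj]
  have hLc : ∀ A ∈ L, A * e = e * A := fun A hA => lie_comm hrange ((hL A).1 hA)
  have hLc' : ∀ A ∈ L, ∀ m, A (inc m) = inc (prj (A (inc m))) := by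
    intro A hA m
    have h1 := LinearMap.congr_fun (hLc A hA) (inc m)
    rw [End.mul_apply, End.mul_apply, heap, heap, hpi] at h1
    exact h1
  have hLs : ∀ A ∈ L, InSo B (bk inc prj A) := by
    intro A hA
    have h2 := lie3 (M × N) R.range (B.compl₁₂ prj prj) (by
      rintro _ ⟨T, rfl⟩ x y
      simp only [LinearMap.compl₁₂_apply, hprj]
      exact h.inv T _ _) A ((hL A).1 hA)
    intro x y
    have h3 := h2 (inc x) (inc y)
    simp only [LinearMap.compl₁₂_apply, hpi] at h3
    exact h3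
  -- conjugation
  have hbconj : ∀ T A, bk inc prj ((R T : End ℤ_[2] (M × N)) * A *
      (((R T)⁻¹ : (End ℤ_[2] (M × N))ˣ) : End ℤ_[2] (M × N))) = (ρ T : End ℤ_[2] M) *
        bk inc prj A * (((ρ T)⁻¹ : (End ℤ_[2] M)ˣ) : End ℤ_[2] M) := by
    intro T A
    refine LinearMap.ext fun m => ?_
    rw [← map_inv, ← map_inv, bk_apply, End.mul_apply, End.mul_apply, hprj, hinc, End.mul_apply,
      End.mul_apply, bk_apply]
  have hiconj : ∀ T a, ik inc prj ((ρ T : End ℤ_[2] M) * a *
      (((ρ T)⁻¹ : (End ℤ_[2] M)ˣ) : End ℤ_[2] M)) = (R T : End ℤ_[2] (M × N)) * ik inc prj a *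
        (((R T)⁻¹ : (End ℤ_[2] (M × N))ˣ) : End ℤ_[2] (M × N)) := by
    intro T a
    refine LinearMap.ext fun x => ?_
    rw [← map_inv, ← map_inv, ik_apply, End.mul_apply, End.mul_apply, End.mul_apply,
      End.mul_apply, ik_apply, hprj, hinc]
  have hbi : ∀ a : End ℤ_[2] M, bk inc prj (ik inc prj a) = a := by
    intro a
    refine LinearMap.ext fun m => ?_
    rw [bk_apply, ik_apply, hpi, hpi]
  have hbmul : ∀ A ∈ L, ∀ A' ∈ L, bk inc prj (A * A') = bk inc prj A * bk inc prj A' := by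
    intro A _ A' hA'
    refine LinearMap.ext fun m => ?_
    rw [bk_apply, End.mul_apply, End.mul_apply, bk_apply, bk_apply, ← hLc' A' hA']
  have himul : ∀ a a' : End ℤ_[2] M, ik inc prj (a * a') = ik inc prj a * ik inc prj a' := by
    intro a a'
    refine LinearMap.ext fun x => ?_
    rw [ik_apply, End.mul_apply, End.mul_apply, ik_apply, ik_apply, hpi]
  have hLbr : ∀ A ∈ L, ∀ A' ∈ L, A * A' - A' * A ∈ L := by
    intro A hA A' hA'
    rw [hL] at hA hA' ⊢
    refine lie_bracket ?_ hA hA'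
    intro g hg g' hg'
    exact mul_mem (mul_mem (mul_mem hg hg') (inv_mem hg)) (inv_mem hg')
  -- the blocks of the elements of `L`
  let S : Submodule ℤ_[2] (End ℤ_[2] M) :=
    { carrier := {a | ∃ s : ℕ, ∃ A ∈ L, (2 : ℤ_[2]) ^ s • a = bk inc prj A}
      add_mem' := by
        rintro a b ⟨s, A, hA, h⟩ ⟨s', A', hA', h'⟩
        refine ⟨s + s', (2 : ℤ_[2]) ^ s' • A + (2 : ℤ_[2]) ^ s • A',
          add_mem (L.smul_mem _ hA) (L.smul_mem _ hA'), ?_⟩
        rw [smul_add, map_add, map_smul, map_smul, ← h, ← h', smul_smul, smul_smul, pow_add,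
          mul_comm ((2 : ℤ_[2]) ^ s')]
      zero_mem' := ⟨0, 0, zero_mem _, by rw [smul_zero, map_zero]⟩
      smul_mem' := by
        rintro c a ⟨s, A, hA, h⟩
        exact ⟨s, c • A, L.smul_mem c hA, by rw [map_smul, ← h, smul_comm]⟩ }
  have hP := hst S (by
      rintro a ⟨s, A, hA, h1⟩
      exact ⟨s + 1, A, hA, by rw [pow_succ, mul_smul, h1]⟩) (by
      rintro _ ⟨T, rfl⟩ a ⟨s, A, hA, h1⟩
      refine ⟨s, _, hLconj (R T) ⟨T, rfl⟩ A hA, ?_⟩
      rw [hbconj, ← h1, mul_smul_comm, smul_mul_assoc]) (by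
      rintro a ⟨s, A, hA, h1⟩
      have h2 : InSo B ((2 : ℤ_[2]) ^ s • a) := by rw [h1]; exact hLs A hA
      intro x y
      have h3 := h2 x y
      simp only [LinearMap.smul_apply, map_smul, smul_eq_mul] at h3
      have h4 : (2 : ℤ_[2]) ^ s * (B (a x) y + B x (a y)) = 0 := by linear_combination h3
      exact (mul_eq_zero.1 h4).resolve_left (pow_ne_zero s two_ne)) (by
      rintro a ⟨s, A, hA, h1⟩ a' ⟨s', A', hA', h1'⟩
      refine ⟨s + s', A * A' - A' * A, hLbr A hA A' hA', ?_⟩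
      rw [map_sub, hbmul A hA A' hA', hbmul A' hA' A hA, ← h1, ← h1', smul_sub,
        smul_mul_smul_comm, smul_mul_smul_comm, pow_add, mul_comm ((2 : ℤ_[2]) ^ s')]) (by
      obtain ⟨T, hT, hT1⟩ := h.inf
      obtain ⟨N₀, hN, hN1⟩ := exists_pow_four (R T)
      obtain ⟨A, hA⟩ := hN1
      obtain ⟨X, hX, hX1⟩ := lie_log (H := R.range)
        (pow_mem (⟨T, rfl⟩ : R T ∈ R.range) N₀) hA
      have hTN : ρ T ^ N₀ ≠ 1 := fun h1 => hT1 (torsion_free_four hT hN h1)
      obtain ⟨m, hm⟩ : ∃ m, ((ρ T ^ N₀ : (End ℤ_[2] M)ˣ) : End ℤ_[2] M) m ≠ m := by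
        by_contra h2
        push Not at h2
        exact hTN (Units.ext (LinearMap.ext h2))
      have hAm : A (inc m) ≠ 0 := by
        intro h2
        apply hm
        have h3 := LinearMap.congr_fun hA (inc m)
        rw [← map_pow, hinc, LinearMap.add_apply, LinearMap.smul_apply, h2, smul_zero, add_zero,
          End.one_apply, map_pow] at h3
        have h4 := congrArg prj h3
        rw [hpi, hpi] at h4
        exact h4
      have hXL : X ∈ L := (hL X).2 hX
      have hXm := hX1 _ hAm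
      have hbm : bk inc prj X m ≠ 0 := by
        intro h2
        apply hXm
        rw [hLc' X hXL, ← bk_apply, h2, map_zero]
      intro h2
      have h3 : bk inc prj X ∈ S := ⟨0, X, hXL, by rw [pow_zero, one_smul]⟩
      rw [h2, Submodule.mem_bot] at h3
      exact hbm (by rw [h3]; rfl))
  -- the elements of `L` with one block
  have hQ := hst (L.comap (ik inc prj)) (by
      intro a ha
      rw [Submodule.mem_comap, map_smul] at ha
      exact hLsat _ ha) (by
      rintro _ ⟨T, rfl⟩ a ha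
      rw [Submodule.mem_comap] at ha ⊢
      rw [hiconj]
      exact hLconj (R T) ⟨T, rfl⟩ _ ha) (by
      intro a ha
      have h1 := hLs _ ha
      rwa [hbi] at h1) (by
      intro a ha a' ha'
      rw [Submodule.mem_comap] at ha ha' ⊢
      rw [map_sub, himul, himul]
      exact hLbr _ ha _ ha') (by
      intro hbot
      obtain ⟨T, hT3, hT1, hTj⟩ := h.ind
      -- an element of `S` which does not commute with `act T`
      obtain ⟨a, ha, m, hm⟩ : ∃ a ∈ S, ∃ m : M, ∀ g : End ℤ_[2] M,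
          (∀ x i, κ (g x) (act T i) = κ x i) → κ (g (a m)) ≠ κ (a (g m)) := by
        rcases hP with hP | ⟨v, hv, hP⟩
        · obtain ⟨v, hv⟩ := h.surj fun _ => 1
          obtain ⟨a, ha, -, hm⟩ := tri κ h.ker h.surj h.odd h.card B h.symm hdot v
            (fun i => by rw [hv]) (act T) hT3 hT1
          exact ⟨a, hP a ha, hm⟩
        · obtain ⟨a, ha, hav, hm⟩ := tri κ h.ker h.surj h.odd h.card B h.symm hdot v
            hv (act T) hT3 hT1
          exact ⟨a, (hP a).2 ⟨ha, hav⟩, hm⟩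
      obtain ⟨s, A, hAL, hA⟩ := ha
      -- the map which forgets the block
      let f : End ℤ_[2] (M × N) →ₗ[ℤ_[2]] End ℤ_[2] (M × N) :=
        { toFun := fun x => x * (1 - e)
          map_add' := fun x y => add_mul _ _ _
          map_smul' := fun c x => smul_mul_assoc _ _ _ }
      have hf : ∀ x : End ℤ_[2] (M × N), f x = x * (1 - e) := fun x => rfl
      have hfinj : ∀ x ∈ L, f x = 0 → x = 0 := by
        intro x hx h1
        have h2 : x = x * e := by
          have h3 : x * (1 - e) = 0 := h1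
          rw [mul_sub, mul_one, sub_eq_zero] at h3
          exact h3
        have h3 : ik inc prj (bk inc prj x) = x := by
          refine LinearMap.ext fun y => ?_
          rw [ik_apply, bk_apply, ← hLc' x hx, ← heap, ← End.mul_apply, ← h2]
        have h4 : bk inc prj x ∈ L.comap (ik inc prj) := by
          rw [Submodule.mem_comap, h3]
          exact hx
        rw [hbot, Submodule.mem_bot] at h4
        rw [h4, map_zero] at h3
        exact h3.symm
      obtain ⟨c, hc⟩ := rees_sub L f hfinj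
      -- the action off the block
      have hgf : ∀ T, (R T : End ℤ_[2] (M × N)) * (1 - e) =
          (1 - e) * (R T : End ℤ_[2] (M × N)) := by
        intro T
        rw [mul_sub, sub_mul, mul_one, one_mul, hrange _ ⟨T, rfl⟩]
      have hff : (1 - e) * (1 - e) = 1 - e := by
        rw [mul_sub, mul_one, sub_mul, one_mul, hee, sub_self, sub_zero]
      have hef : e * (1 - e) = 0 := by rw [mul_sub, mul_one, hee, sub_self]
      have hfe : (1 - e) * e = 0 := by rw [sub_mul, one_mul, hee, sub_self]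
      have hmulU : ∀ T T', ((R T : End ℤ_[2] (M × N)) * (1 - e) + e) *
          ((R T' : End ℤ_[2] (M × N)) * (1 - e) + e) =
          (R (T * T') : End ℤ_[2] (M × N)) * (1 - e) + e := by
        intro T T'
        rw [mul_add, add_mul, add_mul, hee, mul_assoc _ (1 - e) e, hfe, mul_zero, zero_add,
          ← mul_assoc e, ← hrange _ ⟨T', rfl⟩, mul_assoc _ e, hef, mul_zero, add_zero,
          mul_assoc _ (1 - e), ← mul_assoc (1 - e), ← hgf, mul_assoc, hff, ← mul_assoc, map_mul,
          Units.val_mul]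
      let υ : G →* (End ℤ_[2] (M × N))ˣ :=
        { toFun := fun T => ⟨(R T : End ℤ_[2] (M × N)) * (1 - e) + e,
            (R T⁻¹ : End ℤ_[2] (M × N)) * (1 - e) + e,
            by rw [hmulU, mul_inv_cancel, map_one, Units.val_one, one_mul, sub_add_cancel],
            by rw [hmulU, inv_mul_cancel, map_one, Units.val_one, one_mul, sub_add_cancel]⟩
          map_one' := Units.ext (by
            show (R 1 : End ℤ_[2] (M × N)) * (1 - e) + e = 1
            rw [map_one, Units.val_one, one_mul, sub_add_cancel])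
          map_mul' := fun T T' => Units.ext (hmulU T T').symm }
      have hυ : ∀ T, (υ T : End ℤ_[2] (M × N)) = (R T : End ℤ_[2] (M × N)) * (1 - e) + e :=
        fun T => rfl
      -- the conjugates of `A`
      set n := 2 * (s + 1 + c) with hn
      set T' := T ^ 2 ^ n with hT'
      have hυT : Cg (s + 1 + c) (υ T' : End ℤ_[2] (M × N)) 1 := by
        rw [hT', map_pow]
        refine Cg.mono (by omega) (pow_two_cg (n := n) ?_)
        rw [cg_iff]
        intro x
        obtain ⟨z, hz⟩ := hTj x.2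
        refine ⟨((0 : M), z), ?_⟩
        rw [pow_one, hυ, LinearMap.add_apply, End.mul_apply, End.one_apply,
          LinearMap.sub_apply, End.one_apply, heap]
        have e1 : x - inc (prj x) = ((0 : M), x.2) := by
          ext
          · show x.1 - x.1 = 0
            rw [sub_self]
          · show x.2 - 0 = x.2
            rw [sub_zero]
        rw [e1, hR, pr_apply]
        ext
        · show ((ρ T : End ℤ_[2] M) 0 + x.1) - x.1 = (2 : ℤ_[2]) • (0 : M)
          rw [map_zero, zero_add, sub_self, smul_zero]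
        · show ((ν T : End ℤ_[2] N) x.2 + 0) - x.2 = (2 : ℤ_[2]) • z
          rw [add_zero, hz]
      have hT'i : act T' = act T := by
        rw [hT', map_pow]
        have h1 : 2 ^ n % 3 = 1 := by
          rw [hn, pow_mul]
          norm_num [Nat.pow_mod]
        have h2 : 2 ^ n = 3 * (2 ^ n / 3) + 1 := by omega
        rw [h2, pow_add, pow_mul, hT3, one_pow, one_mul, pow_one]
      set A' := (R T' : End ℤ_[2] (M × N)) * A *
          (((R T')⁻¹ : (End ℤ_[2] (M × N))ˣ) : End ℤ_[2] (M × N)) - A with hA'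
      have hA'L : A' ∈ L := sub_mem (hLconj (R T') ⟨T', rfl⟩ A hAL) hAL
      have hdiv : ∃ y, f A' = (2 : ℤ_[2]) ^ (s + 1 + c) • y := by
        obtain ⟨C, hC⟩ := hυT
        have hAf : A * (1 - e) = (1 - e) * A := by
          rw [mul_sub, sub_mul, mul_one, one_mul, hLc A hAL]
        have hinvf : (((R T')⁻¹ : (End ℤ_[2] (M × N))ˣ) : End ℤ_[2] (M × N)) * (1 - e) =
            (((υ T')⁻¹ : (End ℤ_[2] (M × N))ˣ) : End ℤ_[2] (M × N)) * (1 - e) := by
          rw [← map_inv, ← map_inv, hυ, add_mul, hef, add_zero, mul_assoc, hff]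
        have hfinv : (1 - e) * (((R T')⁻¹ : (End ℤ_[2] (M × N))ˣ) : End ℤ_[2] (M × N)) =
            (((R T')⁻¹ : (End ℤ_[2] (M × N))ˣ) : End ℤ_[2] (M × N)) * (1 - e) := by
          rw [← map_inv, hgf]
        have h1 : (R T' : End ℤ_[2] (M × N)) * A *
            (((R T')⁻¹ : (End ℤ_[2] (M × N))ˣ) : End ℤ_[2] (M × N)) *
            (1 - e) = (υ T' : End ℤ_[2] (M × N)) * A * (((υ T')⁻¹ : (End ℤ_[2] (M × N))ˣ) :
              End ℤ_[2] (M × N)) * (1 - e) := by
          have h2 : (υ T' : End ℤ_[2] (M × N)) * (1 - e) =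
              (R T' : End ℤ_[2] (M × N)) * (1 - e) := by
            rw [hυ, add_mul, hef, add_zero, mul_assoc, hff]
          have h4 : ∀ g gi : End ℤ_[2] (M × N), gi * (1 - e) = (1 - e) * gi →
              g * A * gi * (1 - e) = g * (1 - e) * A * (gi * (1 - e)) := by
            intro g gi hgi
            calc g * A * gi * (1 - e) = g * (A * (gi * (1 - e))) := by simp only [mul_assoc]
              _ = g * (A * ((1 - e) * gi)) := by rw [hgi]
              _ = g * (A * ((1 - e) * (1 - e) * gi)) := by rw [hff]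
              _ = g * ((A * (1 - e)) * ((1 - e) * gi)) := by simp only [mul_assoc]
              _ = g * (((1 - e) * A) * (gi * (1 - e))) := by rw [hAf, hgi]
              _ = _ := by simp only [mul_assoc]
          rw [h4 _ _ hfinv.symm, h4 (υ T' : End ℤ_[2] (M × N)) (((υ T')⁻¹ :
            (End ℤ_[2] (M × N))ˣ) : End ℤ_[2] (M × N)) (by
              rw [← map_inv, hυ, add_mul, mul_add, hef, hfe, add_zero, add_zero, ← mul_assoc, ← hgf]),
            h2, hinvf]
        refine ⟨(C * A - A * C) * ((((υ T')⁻¹ : (End ℤ_[2] (M × N))ˣ) : End ℤ_[2] (M × N)) *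
          (1 - e)), ?_⟩
        have h3 : (υ T' : End ℤ_[2] (M × N)) * A - A * (υ T' : End ℤ_[2] (M × N)) =
            (2 : ℤ_[2]) ^ (s + 1 + c) • (C * A - A * C) := by
          rw [hC, add_mul, mul_add, one_mul, mul_one, smul_mul_assoc, mul_smul_comm, smul_sub]
          abel
        rw [← smul_mul_assoc, ← h3, hf, hA', sub_mul, h1, sub_mul, ← mul_assoc, ← mul_assoc,
          mul_assoc A, Units.mul_inv, mul_one]
      obtain ⟨z, hz, hz2⟩ := hc (s + 1) A' hA'L hdiv
      have h1 : bk inc prj A' = (ρ T' : End ℤ_[2] M) * bk inc prj A *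
          (((ρ T')⁻¹ : (End ℤ_[2] M)ˣ) : End ℤ_[2] M) - bk inc prj A := by
        rw [hA', map_sub, hbconj]
      rw [hz2, map_smul, ← hA, mul_smul_comm, smul_mul_assoc, ← smul_sub, pow_succ, mul_smul] at h1
      have h2 := smul_cancel h1
      have h3 : (ρ T' : End ℤ_[2] M) * a - a * (ρ T' : End ℤ_[2] M) =
          (2 : ℤ_[2]) • (bk inc prj z * (ρ T' : End ℤ_[2] M)) := by
        rw [← smul_mul_assoc, h2, sub_mul, mul_assoc, Units.inv_mul, mul_one]
      have h4 := LinearMap.congr_fun h3 m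
      refine hm (ρ T' : End ℤ_[2] M) (fun x i => ?_) ?_
      · rw [← hT'i]
        exact h.eqv T' x i
      · rw [← sub_eq_zero, ← map_sub, h.ker]
        exact ⟨_, h4⟩)
  have hik : ∀ a : End ℤ_[2] M, a ∈ L.comap (ik inc prj) →
      InLie (pr ρ ν).range (a.prodMap (0 : End ℤ_[2] N)) := by
    intro a ha
    have h1 : ik inc prj a = a.prodMap (0 : End ℤ_[2] N) := rfl
    rw [Submodule.mem_comap, h1] at ha
    exact (hL _).1 ha
  rcases hQ with hQ | ⟨v, hv, hQ⟩
  · exact ⟨0, Or.inl rfl, fun T => Or.inl (map_zero _), fun a ha _ => hik a (hQ a ha)⟩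
  · have hvv : PadicInt.toZMod (B v v) ≠ 0 := by
      rw [hdot]
      simp only [hv, mul_one, Finset.sum_const, Finset.card_univ, nsmul_eq_mul]
      obtain ⟨t, ht⟩ := h.odd
      rw [ht]
      push_cast
      rw [show (2 : ZMod 2) = 0 from rfl, zero_mul, zero_add]
      exact one_ne_zero
    have hvv0 : B v v ≠ 0 := fun h0 => hvv (by rw [h0, map_zero])
    refine ⟨v, Or.inr hv, fun T => ?_, fun a ha hav => hik a ((hQ a).2 ⟨ha, hav⟩)⟩
    obtain ⟨c, hc⟩ := hAn2 v hv ((ρ T : End ℤ_[2] M) v) (by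
      intro a ha hav
      -- conjugate by the inverse
      have h1 : ((ρ T⁻¹ : (End ℤ_[2] M)ˣ) : End ℤ_[2] M) * a *
          (((ρ T⁻¹)⁻¹ : (End ℤ_[2] M)ˣ) : End ℤ_[2] M) ∈ L.comap (ik inc prj) := by
        rw [Submodule.mem_comap, hiconj]
        exact hLconj (R T⁻¹) ⟨T⁻¹, rfl⟩ _ ((hQ a).2 ⟨ha, hav⟩)
      have h2 := ((hQ _).1 h1).2
      rw [End.mul_apply, End.mul_apply, map_inv, inv_inv] at h2
      have h3 := congrArg (ρ T : End ℤ_[2] M) h2
      rw [map_zero, ← End.mul_apply, Units.mul_inv] at h3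
      exact h3)
    have h1 := h.inv T v v
    rw [hc, map_smul, map_smul, LinearMap.smul_apply, smul_eq_mul, smul_eq_mul] at h1
    have h2 : (c - 1) * (c + 1) = 0 := by
      have h3 : ((c - 1) * (c + 1)) * B v v = 0 := by linear_combination h1
      exact (mul_eq_zero.1 h3).resolve_right hvv0
    rcases mul_eq_zero.1 h2 with h3 | h3
    · left
      rw [hc, sub_eq_zero.1 h3, one_smul]
    · right
      rw [hc, eq_neg_of_add_eq_zero_left h3, neg_smul, one_smul]

end Pool.Agent.Q237.ND.BLKN
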