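import Pool.Agent.Q45.ND.Stm

/-!
Job ND-JOINT (project ND of helper45): joint open image for the subgroups reached by a chain.
-/

set_option autoImplicit false
set_option linter.all false

open Module

namespace Pool.Agent.Q237.ND.JOINT

open Pool.Agent.Q45.OI Pool.Agent.Q45.OI.KLA Pool.Agent.Q45.ND
open scoped Classical

section chain

variable {G Ω M N : Type} [Group G] [Fintype Ω] [AddCommGroup M] [Module ℤ_[2] M]
    [Module.Free ℤ_[2] M] [Module.Finite ℤ_[2] M] [AddCommGroup N] [Module ℤ_[2] N]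
    [Module.Free ℤ_[2] N] [Module.Finite ℤ_[2] N] {ρ : G →* (End ℤ_[2] M)ˣ}
    {ν : G →* (End ℤ_[2] N)ˣ} {κ : M →+ (Ω → ZMod 2)} {act : G →* Equiv.Perm Ω}
    {B : M →ₗ[ℤ_[2]] M →ₗ[ℤ_[2]] ℤ_[2]}

/-- The Lie algebra of the subgroups of a chain. -/
theorem lie_chain (hPf : Perf) (h : Data ρ ν κ act B) {v : M} (hv : v = 0 ∨ ∀ i, κ v i = 1)
    (hρv : ∀ T, (ρ T : End ℤ_[2] M) v = v ∨ (ρ T : End ℤ_[2] M) v = -v)
    (htop : ∀ a, InSo B a → a v = 0 → InLie (pr ρ ν).range (a.prodMap (0 : End ℤ_[2] N)))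
    {P : Subgroup G} (hP : Chain P) :
    ∀ a, InSo B a → a v = 0 → InLie (P.map (pr ρ ν)) (a.prodMap (0 : End ℤ_[2] N)) := by
  have hinv : ∀ g ∈ ρ.range, InO B (g : End ℤ_[2] M) := by
    rintro _ ⟨T, rfl⟩ x y
    exact h.inv T x y
  have hperm : ∀ s : Equiv.Perm Ω, ∃ g ∈ ρ.range, ∀ m i, κ ((g : End ℤ_[2] M) m) (s i) = κ m i := by
    intro s
    obtain ⟨T, rfl⟩ := h.perm s
    exact ⟨ρ T, ⟨T, rfl⟩, h.eqv T⟩
  induction hP with
  | top =>
    intro a ha hav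
    have h1 := htop a ha hav
    rwa [MonoidHom.range_eq_map] at h1
  | pow n hn hPQ _ ih =>
    intro a ha hav
    refine lie5 _ _ _ n hn ?_ _ (ih a ha hav)
    rintro _ ⟨T, hT, rfl⟩
    exact ⟨T ^ n, hPQ T hT, by rw [map_pow]⟩
  | @comm P Q hPQ _ ih =>
    intro a ha hav
    obtain ⟨s, hs⟩ := hPf Ω h.odd h.card M κ h.surj h.ker ρ.range B h.symm h.perfect hinv hperm v hv
      (by rintro _ ⟨T, rfl⟩; exact hρv T) a ha hav
    obtain ⟨K, hK1, hK2, -, -⟩ := lie1 (M × N) (Q.map (pr ρ ν))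
    set J : End ℤ_[2] M →ₗ[ℤ_[2]] End ℤ_[2] (M × N) :=
      ik (LinearMap.inl ℤ_[2] M N) (LinearMap.fst ℤ_[2] M N) with hJ
    have hJa : ∀ a, J a = a.prodMap (0 : End ℤ_[2] N) := fun a => rfl
    have hJm : ∀ a b, J (a * b) = J a * J b := fun a b => rfl
    have hbr : ∀ x y : End ℤ_[2] M, InSo B x → x v = 0 → InSo B y → y v = 0 →
        J (x * y - y * x) ∈ K := by
      intro x y hx hxv hy hyv
      rw [hK1, map_sub, hJm, hJm]
      refine lie_bracket ?_ (ih x hx hxv) (ih y hy hyv)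
      rintro _ ⟨S, hS, rfl⟩ _ ⟨T, hT, rfl⟩
      exact ⟨S * T * S⁻¹ * T⁻¹, hPQ S hS T hT, by simp only [map_mul, map_inv]⟩
    have hspan : ∀ c ∈ Submodule.span ℤ_[2] {c : End ℤ_[2] M | ∃ x y : End ℤ_[2] M, InSo B x ∧
        x v = 0 ∧ InSo B y ∧ y v = 0 ∧ c = x * y - y * x}, J c ∈ K := by
      intro c hc
      induction hc using Submodule.span_induction with
      | mem c hc =>
        obtain ⟨x, y, hx, hxv, hy, hyv, rfl⟩ := hc
        exact hbr x y hx hxv hy hyv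
      | zero => rw [map_zero]; exact zero_mem _
      | add a b _ _ ha hb => rw [map_add]; exact add_mem ha hb
      | smul r a _ ha => rw [map_smul]; exact K.smul_mem _ ha
    have h1 := hspan _ hs
    rw [map_smul] at h1
    have hsat : ∀ (s : ℕ) (Y : End ℤ_[2] (M × N)), (2 : ℤ_[2]) ^ s • Y ∈ K → Y ∈ K := by
      intro s
      induction s with
      | zero => intro Y h3; rwa [pow_zero, one_smul] at h3
      | succ s ih =>
        intro Y h3
        rw [pow_succ, mul_smul] at h3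
        exact hK2 _ (ih _ h3)
    exact (hK1 _).1 (hsat s _ h1)

/-- The isometries which fix `v`. -/
def stabv (B : M →ₗ[ℤ_[2]] M →ₗ[ℤ_[2]] ℤ_[2]) (v : M) : Subgroup (End ℤ_[2] M)ˣ where
  carrier := {g | InO B (g : End ℤ_[2] M) ∧ (g : End ℤ_[2] M) v = v}
  mul_mem' := by
    rintro g h ⟨hg, hgv⟩ ⟨hh, hhv⟩
    refine ⟨fun x y => ?_, ?_⟩
    · rw [Units.val_mul, End.mul_apply, End.mul_apply, hg, hh]
    · rw [Units.val_mul, End.mul_apply, hhv, hgv]
  one_mem' := ⟨fun x y => rfl, rfl⟩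
  inv_mem' := by
    rintro g ⟨hg, hgv⟩
    have hgi : ∀ z, (g : End ℤ_[2] M) (((g⁻¹ : (End ℤ_[2] M)ˣ) : End ℤ_[2] M) z) = z := by
      intro z
      rw [← End.mul_apply, Units.mul_inv]
      rfl
    have hgi' : ∀ z, ((g⁻¹ : (End ℤ_[2] M)ˣ) : End ℤ_[2] M) ((g : End ℤ_[2] M) z) = z := by
      intro z
      rw [← End.mul_apply, Units.inv_mul]
      rfl
    refine ⟨fun x y => ?_, ?_⟩
    · rw [← hg, hgi, hgi]
    · conv_lhs => rw [← hgv]
      exact hgi' v

/-- The Lie algebra of the group of the isometries which fix `v`. -/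
theorem lie_stabv {v : M} {a : End ℤ_[2] M} (ha : InLie (stabv B v) a) : InSo B a ∧ a v = 0 := by
  refine ⟨lie3 M (stabv B v) B (fun g hg => hg.1) a ha, zero_of_div fun n => ?_⟩
  obtain ⟨i, hi, g, hg, C, hC⟩ := ha n
  refine ⟨-(C v), ?_⟩
  apply smul_cancel (n := i)
  have h1 : (g : End ℤ_[2] M) v = v := hg.2
  rw [hC] at h1
  simp only [LinearMap.add_apply, LinearMap.smul_apply, End.one_apply] at h1
  rw [smul_neg, smul_neg, smul_smul, ← pow_add]
  have h2 : v + ((2 : ℤ_[2]) ^ i • a v + (2 : ℤ_[2]) ^ (i + n) • C v) = v + 0 := by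
    rw [← add_assoc, h1, add_zero]
  exact eq_neg_of_add_eq_zero_left (add_left_cancel h2)

end chain

theorem main (hB : BlkN) (hPf : Perf) : Joint := by
  intro G Ω M N _ _ _ _ _ _ _ _ _ _ ρ ν κ act B h
  obtain ⟨v, hv, hρv, htop⟩ := hB G Ω M N ρ ν κ act B h
  refine ⟨v, hv, hρv, fun P hP => ?_⟩
  -- the subgroup which fixes `v`
  let P' : Subgroup G :=
    { carrier := {T | T ∈ P ∧ (ρ T : End ℤ_[2] M) v = v}
      mul_mem' := by
        rintro S T ⟨hS, hSv⟩ ⟨hT, hTv⟩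
        refine ⟨mul_mem hS hT, ?_⟩
        rw [map_mul, Units.val_mul, End.mul_apply, hTv, hSv]
      one_mem' := ⟨one_mem _, by rw [map_one]; rfl⟩
      inv_mem' := by
        rintro T ⟨hT, hTv⟩
        refine ⟨inv_mem hT, ?_⟩
        rw [map_inv]
        conv_lhs => rw [← hTv]
        rw [← End.mul_apply, Units.inv_mul]
        rfl }
  have hP' : Chain P' := by
    refine Chain.pow (P := P) 2 (by norm_num) (fun T hT => ⟨pow_mem hT 2, ?_⟩) hP
    rw [map_pow, pow_two, Units.val_mul, End.mul_apply]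
    rcases hρv T with h1 | h1
    · rw [h1, h1]
    · rw [h1, map_neg, h1, neg_neg]
  obtain ⟨j, hj⟩ := indep ρ ν P' (stabv B v) (fun T hT => ⟨fun x y => h.inv T x y, hT.2⟩)
    (fun a ha => lie_chain hPf h hv hρv htop hP' a (lie_stabv ha).1 (lie_stabv ha).2)
  refine ⟨j, fun α hα hαv hα1 n => ?_⟩
  let u : (End ℤ_[2] M)ˣ := (LinearMap.GeneralLinearGroup.generalLinearEquiv ℤ_[2] _).symm α
  have hu : ∀ m, (u : End ℤ_[2] M) m = α m := fun m => rfl
  obtain ⟨T, hT, h5, h6⟩ := hj u ⟨fun x y => by rw [hu, hu]; exact hα x y, by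
    rw [hu]; exact hαv⟩ ((cg_iff _ _ _).2 fun x => hα1 x) n
  refine ⟨T, hT.1, fun m => ?_, (cg_iff _ _ _).1 h6⟩
  exact (cg_iff _ _ _).1 h5 m

end Pool.Agent.Q237.ND.JOINT
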